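import Mathlib
import Pool.Agent.Helper62.DSH.StB

/-!
# Project DSH (MP_087a81_gt), module FRE: the weighted divergence of the mollification
-/

set_option autoImplicit false

open Set Filter Topology MeasureTheory
open Helper62.LH Helper62.DSH
open scoped ContDiff ENNReal

noncomputable section

namespace Pool.Agent.Helper80.DSH

namespace Fre

/-- the alternating tensor dual to `K₁` -/
def el {n j : ℕ} (K₁ : Fin j → Fin n) : Tn n j :=
  fun K' => ∑ σ : Equiv.Perm (Fin j), ((Equiv.Perm.sign σ : ℤ) : ℝ) *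
    (if K' = K₁ ∘ σ then (1 : ℝ) else 0)

theorem sign_sq {j : ℕ} (σ : Equiv.Perm (Fin j)) :
    ((Equiv.Perm.sign σ : ℤ) : ℝ) * ((Equiv.Perm.sign σ : ℤ) : ℝ) = 1 := by
  rcases Int.units_eq_one_or (Equiv.Perm.sign σ) with h | h <;> rw [h] <;> simp

theorem ipt_el {n j : ℕ} (K₁ : Fin j → Fin n) {s : Tn n j} (hs : Altn s) :
    ipt s (el K₁) = s K₁ := by
  have h1 : ∑ I, s I * el K₁ I = ∑ _σ : Equiv.Perm (Fin j), s K₁ := by
    simp only [el, Finset.mul_sum]
    rw [Finset.sum_comm]
    refine Finset.sum_congr rfl fun σ _ => ?_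
    rw [Finset.sum_eq_single (K₁ ∘ σ)]
    · rw [if_pos rfl, hs K₁ σ]
      have := sign_sq σ
      calc _ = (((Equiv.Perm.sign σ : ℤ) : ℝ) * ((Equiv.Perm.sign σ : ℤ) : ℝ)) * s K₁ := by ring
        _ = s K₁ := by rw [this, one_mul]
    · intro I _ hI
      rw [if_neg hI]
      ring
    · intro h
      exact absurd (Finset.mem_univ _) h
  rw [ipt, h1, Finset.sum_const, Finset.card_univ, Fintype.card_perm, Fintype.card_fin,
    nsmul_eq_mul, mul_comm, mul_div_assoc, div_self, mul_one]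
  exact_mod_cast Nat.factorial_ne_zero j

theorem altn_el {n j : ℕ} (K₁ : Fin j → Fin n) : Altn (el K₁) := by
  intro I τ
  simp only [el, Finset.mul_sum]
  rw [← Equiv.sum_comp (Equiv.mulRight τ)]
  refine Finset.sum_congr rfl fun σ _ => ?_
  have h1 : (I ∘ τ = K₁ ∘ ((Equiv.mulRight τ) σ : Equiv.Perm (Fin j))) ↔ I = K₁ ∘ σ := by
    constructor
    · intro h
      funext i
      have := congrFun h (τ.symm i)
      simpa using this
    · intro h
      rw [h]
      funext i
      simp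
  have h2 : ((Equiv.Perm.sign ((Equiv.mulRight τ) σ) : ℤ) : ℝ) =
      ((Equiv.Perm.sign τ : ℤ) : ℝ) * ((Equiv.Perm.sign σ : ℤ) : ℝ) := by
    simp [mul_comm]
  rw [h2]
  by_cases h : I = K₁ ∘ σ
  · rw [if_pos (h1.2 h), if_pos h]
    ring
  · rw [if_neg (fun hh => h (h1.1 hh)), if_neg h]
    ring

theorem sum_ee {n : ℕ} (v : E n) : v = ∑ k, v k • (ee k : E n) := by
  ext i
  simp [ee, Pi.single_apply]

theorem lin_ee {n : ℕ} (L : E n →L[ℝ] ℝ) (v : E n) : L v = ∑ k, v k * L (ee k) := by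
  conv_lhs => rw [sum_ee v]
  simp

/-- the first order operator -/
def Ao {n j : ℕ} (F : Fin n → E n → E n) (W : E n → ℝ) (e : Tn n j)
    (J : Fin (j + 1) → Fin n) (k : Fin n) (x : E n) : ℝ :=
  ∑ c : Fin (j + 1), (-1) ^ (c : ℕ) * (F (J c) x) k * e (fun i => J (c.succAbove i)) *
    (W x / (j + 1).factorial)

def Bo {n j : ℕ} (G : E n → Fin n → Fin n → Fin n → ℝ) (W : E n → ℝ) (e : Tn n j)
    (J : Fin (j + 1) → Fin n) (x : E n) : ℝ :=
  ∑ c : Fin (j + 1), (-((-1) ^ (c : ℕ) * rho (G x (J c)) e (fun i => J (c.succAbove i)))) *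
    (W x / (j + 1).factorial)

theorem smAo {n j : ℕ} {g : E n → Bl n} {Γ : E n → Bm n} {F : Fin n → E n → E n}
    {G : E n → Fin n → Fin n → Fin n → ℝ} (hF : Frm g Γ F G) {W : E n → ℝ}
    (hW : ContDiff ℝ ∞ W) (e : Tn n j) (J : Fin (j + 1) → Fin n) (k : Fin n) :
    ContDiff ℝ ∞ (Ao F W e J k) := by
  unfold Ao
  refine ContDiff.sum fun c _ => ?_
  have h1 : ContDiff ℝ ∞ (fun x => (F (J c) x) k) := contDiff_euclidean.1 (hF.smF (J c)) k
  exact ((contDiff_const.mul h1).mul contDiff_const).mul (hW.div_const _)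

theorem smRho {n j : ℕ} {g : E n → Bl n} {Γ : E n → Bm n} {F : Fin n → E n → E n}
    {G : E n → Fin n → Fin n → Fin n → ℝ} (hF : Frm g Γ F G) (e : Tn n j) (a : Fin n)
    (I : Fin j → Fin n) : ContDiff ℝ ∞ (fun x => rho (G x a) e I) := by
  unfold rho
  exact ContDiff.sum fun k _ => ContDiff.sum fun l _ => (hF.smG _ _ _).mul contDiff_const

theorem smBo {n j : ℕ} {g : E n → Bl n} {Γ : E n → Bm n} {F : Fin n → E n → E n}
    {G : E n → Fin n → Fin n → Fin n → ℝ} (hF : Frm g Γ F G) {W : E n → ℝ}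
    (hW : ContDiff ℝ ∞ W) (e : Tn n j) (J : Fin (j + 1) → Fin n) :
    ContDiff ℝ ∞ (Bo G W e J) := by
  unfold Bo
  refine ContDiff.sum fun c _ => ?_
  exact (contDiff_const.mul (smRho hF e (J c) _)).neg.mul (hW.div_const _)

/-- the exterior derivative of `ψ • e` -/
theorem dF_smul {n j : ℕ} (hLbz : TLbz) {g : E n → Bl n} {Γ : E n → Bm n}
    {F : Fin n → E n → E n} {G : E n → Fin n → Fin n → Fin n → ℝ} (hF : Frm g Γ F G)
    {ψ : E n → ℝ} (hψ : ContDiff ℝ ∞ ψ) (e : Tn n j) (x : E n) (J : Fin (j + 1) → Fin n) :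
    dF F G (fun y => ψ y • e) x J =
      ∑ c : Fin (j + 1), (-1) ^ (c : ℕ) * (fderiv ℝ ψ x (F (J c) x) *
        e (fun i => J (c.succAbove i)) - ψ x * rho (G x (J c)) e (fun i => J (c.succAbove i))) := by
  have h1 := ((hLbz n j g Γ F G hF).2.1 ψ (fun _ => e) hψ contDiff_const x).2
  rw [h1]
  have h2 : ∀ a, cv F G (fun _ : E n => e) x a = -rho (G x a) e := by
    intro a
    simp [cv]
  simp only [Pi.add_apply, Pi.smul_apply, dF, wd, h2, smul_eq_mul, Pi.neg_apply]
  rw [Finset.mul_sum, ← Finset.sum_add_distrib]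
  refine Finset.sum_congr rfl fun c _ => ?_
  ring

/-- the pairing as a first order operator on `ψ` -/
theorem pair {n j : ℕ} (hLbz : TLbz) {g : E n → Bl n} {Γ : E n → Bm n}
    {F : Fin n → E n → E n} {G : E n → Fin n → Fin n → Fin n → ℝ} (hF : Frm g Γ F G)
    (W : E n → ℝ) {ψ : E n → ℝ} (hψ : ContDiff ℝ ∞ ψ) (e : Tn n j) (x : E n)
    (t : Tn n (j + 1)) :
    ipt t (dF F G (fun y => ψ y • e) x) * W x =
      ∑ J, t J * ((∑ k, Ao F W e J k x * fderiv ℝ ψ x (ee k)) + Bo G W e J x * ψ x) := by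
  rw [ipt, div_mul_eq_mul_div, Finset.sum_mul, Finset.sum_div]
  refine Finset.sum_congr rfl fun J _ => ?_
  rw [mul_assoc, mul_div_assoc]
  congr 1
  rw [dF_smul hLbz hF hψ]
  have h1 : ∑ k, Ao F W e J k x * fderiv ℝ ψ x (ee k) =
      ∑ c : Fin (j + 1), (-1) ^ (c : ℕ) * fderiv ℝ ψ x (F (J c) x) *
        e (fun i => J (c.succAbove i)) * (W x / (j + 1).factorial) := by
    simp only [Ao, Finset.sum_mul]
    rw [Finset.sum_comm]
    refine Finset.sum_congr rfl fun c _ => ?_
    rw [lin_ee (fderiv ℝ ψ x) (F (J c) x)]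
    simp only [Finset.mul_sum, Finset.sum_mul]
    refine Finset.sum_congr rfl fun k _ => ?_
    ring
  rw [h1]
  simp only [Bo, Finset.sum_mul]
  rw [← Finset.sum_add_distrib, Finset.sum_div]
  refine Finset.sum_congr rfl fun c _ => ?_
  ring

/-- integration by parts -/
theorem ibp {n : ℕ} {v ψ : E n → ℝ} (hv : ContDiff ℝ ∞ v) (hψ : Cc ψ) (w : E n) :
    ∫ x, fderiv ℝ v x w * ψ x = -∫ x, v x * fderiv ℝ ψ x w := by
  have hvc := hv.continuous
  have hψc := hψ.1.continuous
  have h1 : Continuous (fun x => fderiv ℝ v x w) :=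
    (hv.continuous_fderiv (by simp)).clm_apply continuous_const
  have h2 : Continuous (fun x => fderiv ℝ ψ x w) :=
    (hψ.1.continuous_fderiv (by simp)).clm_apply continuous_const
  have h3 : HasCompactSupport (fun x => fderiv ℝ ψ x w) := hψ.2.fderiv_apply ℝ w
  have := integral_mul_fderiv_eq_neg_fderiv_mul_of_integrable (μ := (volume : Measure (E n)))
    (f := v) (g := ψ) (v := w)
    ((h1.mul hψc).integrable_of_hasCompactSupport (hψ.2.mul_left))
    ((hvc.mul h2).integrable_of_hasCompactSupport (h3.mul_left))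
    ((hvc.mul hψc).integrable_of_hasCompactSupport (hψ.2.mul_left))
    (fun x _ => (hv.differentiable (by simp)).differentiableAt)
    (fun x _ => (hψ.1.differentiable (by simp)).differentiableAt)
  rw [this, neg_neg]

/-- the adjoint operator -/
def Po {n j : ℕ} (F : Fin n → E n → E n) (G : E n → Fin n → Fin n → Fin n → ℝ) (W : E n → ℝ)
    (e : Tn n j) (u : (Fin (j + 1) → Fin n) → E n → ℝ) (x : E n) : ℝ :=
  ∑ J, (Bo G W e J x * u J x - ∑ k, fderiv ℝ (fun z => Ao F W e J k z * u J z) x (ee k))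

theorem Po_eq {n j : ℕ} (hDer : TDer) (hLbz : TLbz) (hAdj : TAdj)
    {g : E n → Bl n} {Γ : E n → Bm n}
    {F : Fin n → E n → E n} {G : E n → Fin n → Fin n → Fin n → ℝ} (hg : IsMet g)
    (hΓ : IsChr g Γ) (hF : Frm g Γ F G) {f : E n → ℝ} (hf : ContDiff ℝ ∞ f)
    (hW : ContDiff ℝ ∞ (wt g f)) (K₁ : Fin j → Fin n) {u : E n → Tn n (j + 1)}
    (hu : ContDiff ℝ ∞ u) (hua : Al u) (x : E n) :
    Po F G (wt g f) (el K₁) (fun J y => u y J) x = -(dlF F G f u x K₁ * wt g f x) := by
  set W := wt g f with hWd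
  set e := el K₁ with he
  have hder := hDer n j g Γ F G hF
  have hds : ContDiff ℝ ∞ (dlF F G f u) := hder.2.1 f u hf hu
  have hda : Al (dlF F G f u) := hder.2.2.2.2.1 f u hu hua
  have huJ : ∀ J, ContDiff ℝ ∞ (fun y => u y J) := fun J => contDiff_pi.1 hu J
  have hdK : ContDiff ℝ ∞ (fun y => dlF F G f u y K₁) := contDiff_pi.1 hds K₁
  have hau : ∀ J k, ContDiff ℝ ∞ (fun z => Ao F W e J k z * u z J) := fun J k =>
    (smAo hF hW e J k).mul (huJ J)
  have hPs : Continuous (Po F G W e (fun J y => u y J)) := by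
    unfold Po
    refine continuous_finsetSum _ fun J _ => ?_
    refine ((smBo hF hW e J).continuous.mul (huJ J).continuous).sub ?_
    refine continuous_finsetSum _ fun k _ => ?_
    exact ((hau J k).continuous_fderiv (by simp)).clm_apply continuous_const
  have hQs : Continuous (fun y => -(dlF F G f u y K₁ * W y)) :=
    (hdK.continuous.mul hW.continuous).neg
  have key : ∀ ψ : E n → ℝ, ContDiff ℝ ∞ ψ → HasCompactSupport ψ →
      ∫ y, ψ y • (Po F G W e (fun J y => u y J) y - -(dlF F G f u y K₁ * W y)) = 0 := by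
    intro ψ hψ hψc
    have hcc : Cc ψ := ⟨hψ, hψc⟩
    have hi1 : Integrable (fun y => Po F G W e (fun J y => u y J) y * ψ y) :=
      (hPs.mul hψ.continuous).integrable_of_hasCompactSupport hψc.mul_left
    have hi2 : Integrable (fun y => (dlF F G f u y K₁ * W y) * ψ y) :=
      ((hdK.continuous.mul hW.continuous).mul hψ.continuous).integrable_of_hasCompactSupport
        hψc.mul_left
    have e1 : ∫ y, ψ y • (Po F G W e (fun J y => u y J) y - -(dlF F G f u y K₁ * W y)) =
        (∫ y, Po F G W e (fun J y => u y J) y * ψ y) + ∫ y, (dlF F G f u y K₁ * W y) * ψ y := by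
      rw [← integral_add hi1 hi2]
      congr 1
      funext y
      simp only [smul_eq_mul]
      ring
    rw [e1]
    -- first integral
    have hiB : ∀ J, Integrable (fun y => (Bo G W e J y * u y J) * ψ y) := fun J =>
      (((smBo hF hW e J).continuous.mul (huJ J).continuous).mul
        hψ.continuous).integrable_of_hasCompactSupport hψc.mul_left
    have hiA : ∀ J k, Integrable (fun y =>
        fderiv ℝ (fun z => Ao F W e J k z * u z J) y (ee k) * ψ y) := fun J k =>
      ((((hau J k).continuous_fderiv (by simp)).clm_apply continuous_const).mul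
        hψ.continuous).integrable_of_hasCompactSupport hψc.mul_left
    have hiA' : ∀ J k, Integrable (fun y =>
        (Ao F W e J k y * u y J) * fderiv ℝ ψ y (ee k)) := fun J k =>
      ((hau J k).continuous.mul ((hψ.continuous_fderiv (by simp)).clm_apply
        continuous_const)).integrable_of_hasCompactSupport (hψc.fderiv_apply ℝ _).mul_left
    have e2 : ∫ y, Po F G W e (fun J y => u y J) y * ψ y =
        ∑ J, ((∫ y, (Bo G W e J y * u y J) * ψ y) -
          ∑ k, ∫ y, fderiv ℝ (fun z => Ao F W e J k z * u z J) y (ee k) * ψ y) := by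
      have : ∀ J, (∫ y, (Bo G W e J y * u y J) * ψ y) -
          ∑ k, ∫ y, fderiv ℝ (fun z => Ao F W e J k z * u z J) y (ee k) * ψ y =
          ∫ y, ((Bo G W e J y * u y J) * ψ y -
            ∑ k, fderiv ℝ (fun z => Ao F W e J k z * u z J) y (ee k) * ψ y) := by
        intro J
        rw [integral_sub (hiB J) (integrable_finsetSum _ fun k _ => hiA J k),
          integral_finsetSum _ fun k _ => hiA J k]
      simp only [this]
      have hJ : ∀ J, Integrable (fun y => (Bo G W e J y * u y J) * ψ y -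
          ∑ k, fderiv ℝ (fun z => Ao F W e J k z * u z J) y (ee k) * ψ y) := fun J =>
        (hiB J).sub (integrable_finsetSum _ fun k _ => hiA J k)
      rw [← integral_finsetSum _ fun J _ => hJ J]
      congr 1
      funext y
      simp only [Po, Finset.sum_mul, sub_mul]
    have e3 : ∫ y, ipt (u y) (dF F G (fun z => ψ z • e) y) * W y =
        ∑ J, ((∫ y, (Bo G W e J y * u y J) * ψ y) +
          ∑ k, ∫ y, (Ao F W e J k y * u y J) * fderiv ℝ ψ y (ee k)) := by
      have : ∀ J, (∫ y, (Bo G W e J y * u y J) * ψ y) +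
          ∑ k, ∫ y, (Ao F W e J k y * u y J) * fderiv ℝ ψ y (ee k) =
          ∫ y, ((Bo G W e J y * u y J) * ψ y +
            ∑ k, (Ao F W e J k y * u y J) * fderiv ℝ ψ y (ee k)) := by
        intro J
        rw [integral_add (hiB J) (integrable_finsetSum _ fun k _ => hiA' J k),
          integral_finsetSum _ fun k _ => hiA' J k]
      simp only [this]
      have hJ : ∀ J, Integrable (fun y => (Bo G W e J y * u y J) * ψ y +
          ∑ k, (Ao F W e J k y * u y J) * fderiv ℝ ψ y (ee k)) := fun J =>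
        (hiB J).add (integrable_finsetSum _ fun k _ => hiA' J k)
      rw [← integral_finsetSum _ fun J _ => hJ J]
      congr 1
      funext y
      rw [pair hLbz hF W hψ e y (u y)]
      refine Finset.sum_congr rfl fun J _ => ?_
      rw [mul_add, Finset.mul_sum, add_comm]
      congr 1
      · ring
      · refine Finset.sum_congr rfl fun k _ => ?_
        ring
    have e4 : ∫ y, Po F G W e (fun J y => u y J) y * ψ y =
        ∫ y, ipt (u y) (dF F G (fun z => ψ z • e) y) * W y := by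
      rw [e2, e3]
      refine Finset.sum_congr rfl fun J _ => ?_
      rw [sub_eq_add_neg, ← Finset.sum_neg_distrib]
      congr 1
      refine Finset.sum_congr rfl fun k _ => ?_
      rw [ibp (hau J k) hcc, neg_neg]
    have e5 := hAdj n j g Γ F G hg hΓ hF f hf u hu hua (fun z => ψ z • e)
      (hψ.smul contDiff_const) (hψc.smul_right)
    rw [e4]
    have e6 : ∫ y, ipt (dlF F G f u y) (ψ y • e) * wt g f y =
        ∫ y, (dlF F G f u y K₁ * W y) * ψ y := by
      congr 1
      funext y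
      have e7 : ipt (dlF F G f u y) (ψ y • e) = ψ y * ipt (dlF F G f u y) e := by
        simp only [ipt, Pi.smul_apply, smul_eq_mul]
        rw [← mul_div_assoc, Finset.mul_sum]
        congr 1
        refine Finset.sum_congr rfl fun I _ => ?_
        ring
      rw [e7, he, ipt_el K₁ (hda y)]
      ring
    rw [hWd, e5, e6, hWd]
    ring
  have hloc : LocallyIntegrable (fun y => Po F G W e (fun J y => u y J) y -
      -(dlF F G f u y K₁ * W y)) volume := (hPs.sub hQs).locallyIntegrable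
  have hae := ae_eq_zero_of_integral_contDiff_smul_eq_zero hloc key
  have hc0 : (fun y => Po F G W e (fun J y => u y J) y - -(dlF F G f u y K₁ * W y)) =
      fun _ => (0 : ℝ) :=
    (hPs.sub hQs).ae_eq_iff_eq (μ := (volume : Measure (E n))) continuous_const |>.1 hae
  have h9 : Po F G W e (fun J y => u y J) x - -(dlF F G f u x K₁ * W x) = 0 := congrFun hc0 x
  linarith

end Fre

open Fre

theorem hFre (hMos : StMos) (hDlv : StDlv) (hNrm : TNrm) (hDer : TDer) (hLbz : TLbz)
    (hAdj : TAdj) (hFrg : TFrg) : TFre := by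
  intro n j g Γ F G hg hΓ hF ρ hρ f hf η hηa hη2 hwk K hK
  obtain ⟨hvs, hvp, -⟩ := hDlv n g Γ hg hΓ
  have hWs : ContDiff ℝ ∞ (wt g f) := (Real.contDiff_exp.comp hf.neg).mul hvs
  have hWp : ∀ x, 0 < wt g f x := fun x => mul_pos (Real.exp_pos _) (hvp x)
  set W := wt g f with hWd
  -- the limit for every component
  have hlim : ∀ K₁ : Fin j → Fin n, Tendsto (fun ε : ℝ => ∫ x in K,
      (Po F G W (el K₁) (fun J y => mt ρ ε η y J) x) ^ 2) (𝓝[>] 0) (𝓝 0) := by
    intro K₁
    have h1 := hFrg n (Fin (j + 1) → Fin n) ρ hρ (Ao F W (el K₁)) (Bo G W (el K₁))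
      (fun J k => smAo hF hWs _ J k) (fun J => smBo hF hWs _ J) (fun J y => η y J)
      (fun _ => 0) hη2 continuous_const ?_ K hK
    · simpa only [Po, Helper62.DSH.mt, Finset.sum_sub_distrib, sub_zero] using h1
    · intro ψ hψ
      have h2 := hwk (fun y => ψ y • el K₁) (hψ.1.smul contDiff_const) ?_ (hψ.2.smul_right)
      · simp only [zero_mul, integral_zero]
        rw [← h2]
        congr 1
        funext x
        rw [pair hLbz hF W hψ.1 (el K₁) x (η x)]
      · intro x I σ
        simp only [Pi.smul_apply, smul_eq_mul]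
        rw [altn_el K₁ I σ]
        ring
  -- smoothness
  have hmts : ∀ ε, 0 < ε → ContDiff ℝ ∞ (mt ρ ε η) := by
    intro ε hε
    rw [contDiff_pi]
    intro I
    exact (hMos n ρ hρ (fun y => η y I) (hη2 I) ε hε).1
  have hmta : ∀ ε, Al (mt ρ ε η) := by
    intro ε x I σ
    simp only [Helper62.DSH.mt, mo]
    rw [← integral_const_mul]
    congr 1
    funext y
    rw [hηa _ I σ]
    ring
  obtain ⟨C, hC0, hC⟩ : ∃ C : ℝ, 0 ≤ C ∧ ∀ x ∈ K, (W x)⁻¹ ≤ C := by
    have hcont : ContinuousOn (fun x => (W x)⁻¹) K :=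
      (hWs.continuous.inv₀ (fun x => (hWp x).ne')).continuousOn
    obtain ⟨C, hC⟩ := hK.exists_bound_of_continuousOn hcont
    refine ⟨max C 0, le_max_right _ _, fun x hx => ?_⟩
    exact ((le_abs_self _).trans (hC x hx)).trans (le_max_left _ _)
  have hq : ∀ t : Tn n j, q2 t = (∑ I, t I ^ 2) / j.factorial := fun t =>
    ((hNrm n j).1 t).2.2
  have hfac : (0 : ℝ) < (j.factorial : ℝ) := by exact_mod_cast Nat.factorial_pos j
  have hPc : ∀ ε, 0 < ε → ∀ K₁ : Fin j → Fin n,
      Continuous (Po F G W (el K₁) (fun J y => mt ρ ε η y J)) := by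
    intro ε hε K₁
    have : Po F G W (el K₁) (fun J y => mt ρ ε η y J) =
        fun x => -(dlF F G f (mt ρ ε η) x K₁ * W x) := by
      funext x
      exact Po_eq hDer hLbz hAdj hg hΓ hF hf hWs K₁ (hmts ε hε) (hmta ε) x
    rw [this]
    have h1 : ContDiff ℝ ∞ (dlF F G f (mt ρ ε η)) :=
      (hDer n j g Γ F G hF).2.1 f _ hf (hmts ε hε)
    exact ((contDiff_pi.1 h1 K₁).continuous.mul hWs.continuous).neg
  have hbound : ∀ ε, 0 < ε → ∫ x in K, q2 (dlF F G f (mt ρ ε η) x) ≤
      ∑ K₁ : Fin j → Fin n, C ^ 2 *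
        ∫ x in K, (Po F G W (el K₁) (fun J y => mt ρ ε η y J) x) ^ 2 := by
    intro ε hε
    have hci : ∀ K₁ : Fin j → Fin n, IntegrableOn
        (fun x => C ^ 2 * (Po F G W (el K₁) (fun J y => mt ρ ε η y J) x) ^ 2) K := fun K₁ =>
      (continuous_const.mul ((hPc ε hε K₁).pow 2)).continuousOn.integrableOn_compact hK
    have h1 : ∑ K₁ : Fin j → Fin n, C ^ 2 *
        ∫ x in K, (Po F G W (el K₁) (fun J y => mt ρ ε η y J) x) ^ 2 =
        ∫ x in K, ∑ K₁ : Fin j → Fin n, C ^ 2 *
          (Po F G W (el K₁) (fun J y => mt ρ ε η y J) x) ^ 2 := by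
      rw [integral_finsetSum _ fun K₁ _ => hci K₁]
      refine Finset.sum_congr rfl fun K₁ _ => ?_
      rw [integral_const_mul]
    rw [h1]
    have hds : ContDiff ℝ ∞ (dlF F G f (mt ρ ε η)) :=
      (hDer n j g Γ F G hF).2.1 f _ hf (hmts ε hε)
    apply setIntegral_mono_on
    · have : (fun x => q2 (dlF F G f (mt ρ ε η) x)) =
          fun x => (∑ I, dlF F G f (mt ρ ε η) x I ^ 2) / j.factorial := by
        funext x
        exact hq _
      rw [this]
      exact ((continuous_finsetSum _ fun I _ =>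
        ((contDiff_pi.1 hds I).continuous.pow 2)).div_const _).continuousOn.integrableOn_compact hK
    · exact integrable_finsetSum _ fun K₁ _ => hci K₁
    · exact hK.measurableSet
    · intro x hx
      rw [hq, div_le_iff₀ hfac]
      have hf1 : (1 : ℝ) ≤ j.factorial := by exact_mod_cast Nat.succ_le_of_lt (Nat.factorial_pos j)
      have hle : ∑ I, dlF F G f (mt ρ ε η) x I ^ 2 ≤ ∑ K₁ : Fin j → Fin n, C ^ 2 *
          (Po F G W (el K₁) (fun J y => mt ρ ε η y J) x) ^ 2 := by
        refine Finset.sum_le_sum fun K₁ _ => ?_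
        rw [Po_eq hDer hLbz hAdj hg hΓ hF hf hWs K₁ (hmts ε hε) (hmta ε) x]
        have hw := hWp x
        have hCW : 1 ≤ C * W x := by
          have := mul_le_mul_of_nonneg_right (hC x hx) hw.le
          rwa [inv_mul_cancel₀ hw.ne'] at this
        have h2 : (1 : ℝ) ≤ (C * W x) ^ 2 := by nlinarith
        calc dlF F G f (mt ρ ε η) x K₁ ^ 2 = dlF F G f (mt ρ ε η) x K₁ ^ 2 * 1 := by ring
          _ ≤ dlF F G f (mt ρ ε η) x K₁ ^ 2 * (C * W x) ^ 2 :=
            mul_le_mul_of_nonneg_left h2 (sq_nonneg _)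
          _ = C ^ 2 * (-(dlF F G f (mt ρ ε η) x K₁ * wt g f x)) ^ 2 := by
            rw [← hWd]; ring
      refine hle.trans ?_
      have hnn : 0 ≤ ∑ K₁ : Fin j → Fin n, C ^ 2 *
          (Po F G W (el K₁) (fun J y => mt ρ ε η y J) x) ^ 2 :=
        Finset.sum_nonneg fun K₁ _ => mul_nonneg (sq_nonneg _) (sq_nonneg _)
      nlinarith
  have hzero : Tendsto (fun ε : ℝ => ∑ K₁ : Fin j → Fin n, C ^ 2 *
      ∫ x in K, (Po F G W (el K₁) (fun J y => mt ρ ε η y J) x) ^ 2) (𝓝[>] 0) (𝓝 0) := by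
    have h15 : Tendsto (fun ε : ℝ => ∑ K₁ : Fin j → Fin n, C ^ 2 *
        ∫ x in K, (Po F G W (el K₁) (fun J y => mt ρ ε η y J) x) ^ 2) (𝓝[>] 0)
        (𝓝 (∑ _K₁ : Fin j → Fin n, C ^ 2 * (0 : ℝ))) :=
      tendsto_finsetSum _ fun K₁ _ => (hlim K₁).const_mul _
    simpa using h15
  apply squeeze_zero' _ _ hzero
  · filter_upwards with ε
    apply setIntegral_nonneg hK.measurableSet
    intro x _
    exact ((hNrm n j).1 _).1
  · filter_upwards [self_mem_nhdsWithin] with ε hε
    exact hbound ε hε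

end Pool.Agent.Helper80.DSH
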